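import Pool.Agent.helper24.CG.Spec

/-!
# MP_ba8873_co: row ASY, asymptotics of the error term
-/

set_option autoImplicit false

namespace Pool.Agent.helper24.CG

open Filter

/-- the logarithm of `LL` -/
theorem ASY_logLL (N m q J n0 : ℕ) (hN : 1 ≤ N) :
    Real.log (LL N m q J n0 : ℕ) ≤
      ((q : ℝ) / (J : ℝ) + 1) * (2 * Real.log N + (Real.log 2 + m * Real.log 4)) +
        ((q : ℝ) + 1) * Real.log (1 + (n0 : ℝ)) := by
  have hNR : (1 : ℝ) ≤ (N : ℝ) := by exact_mod_cast hN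
  have hN0 : (0 : ℝ) < (N : ℝ) := by linarith
  have h4 : (1 : ℝ) ≤ (4 : ℝ) ^ m := one_le_pow₀ (by norm_num)
  have hN2 : (1 : ℝ) ≤ (N : ℝ) ^ 2 := one_le_pow₀ hNR
  have hbase : (0 : ℝ) < 1 + (N : ℝ) ^ 2 * (4 : ℝ) ^ m := by positivity
  have hn0 : (0 : ℝ) < 1 + (n0 : ℝ) := by positivity
  have hcast : ((LL N m q J n0 : ℕ) : ℝ) =
      (1 + (N : ℝ) ^ 2 * (4 : ℝ) ^ m) ^ (q / J + 1) * (1 + (n0 : ℝ)) ^ (q + 1) := by
    unfold LL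
    push_cast
    ring
  rw [hcast, Real.log_mul (pow_pos hbase _).ne' (pow_pos hn0 _).ne', Real.log_pow, Real.log_pow]
  have hlog1 : 0 ≤ Real.log (1 + (N : ℝ) ^ 2 * (4 : ℝ) ^ m) := by
    refine Real.log_nonneg ?_
    have : 0 ≤ (N : ℝ) ^ 2 * (4 : ℝ) ^ m := by positivity
    linarith
  have hlog2 : Real.log (1 + (N : ℝ) ^ 2 * (4 : ℝ) ^ m) ≤
      2 * Real.log N + (Real.log 2 + m * Real.log 4) := by
    have h1 : 1 + (N : ℝ) ^ 2 * (4 : ℝ) ^ m ≤ 2 * ((N : ℝ) ^ 2 * (4 : ℝ) ^ m) := by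
      have : (1 : ℝ) ≤ (N : ℝ) ^ 2 * (4 : ℝ) ^ m := one_le_mul_of_one_le_of_one_le hN2 h4
      linarith
    refine le_trans (Real.log_le_log hbase h1) (le_of_eq ?_)
    rw [Real.log_mul (by norm_num) (by positivity), Real.log_mul (by positivity) (by positivity),
      Real.log_pow, Real.log_pow]
    push_cast
    ring
  have hdiv : (((q / J + 1 : ℕ)) : ℝ) ≤ (q : ℝ) / (J : ℝ) + 1 := by
    push_cast
    have := Nat.cast_div_le (α := ℝ) (m := q) (n := J)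
    linarith
  have hq1 : (((q + 1 : ℕ)) : ℝ) = (q : ℝ) + 1 := by push_cast; ring
  rw [hq1]
  have hc : 0 ≤ 2 * Real.log N + (Real.log 2 + m * Real.log 4) := le_trans hlog1 hlog2
  have hA : (((q / J + 1 : ℕ)) : ℝ) * Real.log (1 + (N : ℝ) ^ 2 * (4 : ℝ) ^ m) ≤
      ((q : ℝ) / (J : ℝ) + 1) * (2 * Real.log N + (Real.log 2 + m * Real.log 4)) := by
    refine mul_le_mul hdiv hlog2 hlog1 ?_
    positivity
  linarith

/-- the logarithm of the number of heavy vertices, `ℓ = s^2`, `q ≤ a s^2` -/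
theorem ASY_lognn (m : ℕ) (lam P a s q : ℝ) (n0 : ℕ) (hlam : 0 ≤ lam) (ha : 0 ≤ a)
    (hs : 1 ≤ s) (hq0 : 0 ≤ q) (hq : q ≤ a * s ^ 2)
    (hn0 : n0 = ⌈(q * s ^ 2 + q ^ 2 * lam + 1) * (2 * P ^ 2 * m * q ^ 2)⌉₊) :
    Real.log (1 + (n0 : ℝ)) ≤ ((a + a ^ 2 * lam + 1) * (2 * P ^ 2 * m * a ^ 2) + 2 + 8) * s := by
  have hs0 : 0 < s := by linarith
  have hs2 : 1 ≤ s ^ 2 := one_le_pow₀ hs
  have hs4 : 1 ≤ s ^ 4 := one_le_pow₀ hs
  have hs8 : 1 ≤ s ^ 8 := one_le_pow₀ hs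
  have hq2 : q ^ 2 ≤ a ^ 2 * s ^ 4 := by
    have := pow_le_pow_left₀ hq0 hq 2
    have e : (a * s ^ 2) ^ 2 = a ^ 2 * s ^ 4 := by ring
    rwa [e] at this
  have hX0 : 0 ≤ q * s ^ 2 + q ^ 2 * lam + 1 := by positivity
  have hY0 : 0 ≤ 2 * P ^ 2 * m * q ^ 2 := by positivity
  have hX : q * s ^ 2 + q ^ 2 * lam + 1 ≤ (a + a ^ 2 * lam + 1) * s ^ 4 := by
    have h1 : q * s ^ 2 ≤ a * s ^ 4 := by
      have := mul_le_mul_of_nonneg_right hq (by positivity : 0 ≤ s ^ 2)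
      have e : a * s ^ 2 * s ^ 2 = a * s ^ 4 := by ring
      rwa [e] at this
    have h2 : q ^ 2 * lam ≤ a ^ 2 * s ^ 4 * lam := mul_le_mul_of_nonneg_right hq2 hlam
    have e : (a + a ^ 2 * lam + 1) * s ^ 4 = a * s ^ 4 + a ^ 2 * s ^ 4 * lam + s ^ 4 := by ring
    rw [e]
    linarith
  have hY : 2 * P ^ 2 * m * q ^ 2 ≤ 2 * P ^ 2 * m * a ^ 2 * s ^ 4 := by
    have := mul_le_mul_of_nonneg_left hq2 (by positivity : (0 : ℝ) ≤ 2 * P ^ 2 * m)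
    have e : 2 * P ^ 2 * (m : ℝ) * (a ^ 2 * s ^ 4) = 2 * P ^ 2 * m * a ^ 2 * s ^ 4 := by ring
    rwa [e] at this
  have hXY : (q * s ^ 2 + q ^ 2 * lam + 1) * (2 * P ^ 2 * m * q ^ 2) ≤
      (a + a ^ 2 * lam + 1) * (2 * P ^ 2 * m * a ^ 2) * s ^ 8 := by
    refine le_trans (mul_le_mul hX hY hY0 (by positivity)) (le_of_eq ?_)
    ring
  have hceil : (n0 : ℝ) ≤ (q * s ^ 2 + q ^ 2 * lam + 1) * (2 * P ^ 2 * m * q ^ 2) + 1 := by
    rw [hn0]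
    exact (Nat.ceil_lt_add_one (mul_nonneg hX0 hY0)).le
  set c : ℝ := (a + a ^ 2 * lam + 1) * (2 * P ^ 2 * m * a ^ 2) + 2 with hc
  have hc0 : 0 < c := by positivity
  have hle : 1 + (n0 : ℝ) ≤ c * s ^ 8 := by
    have e : c * s ^ 8 = (a + a ^ 2 * lam + 1) * (2 * P ^ 2 * m * a ^ 2) * s ^ 8 + 2 * s ^ 8 := by
      rw [hc]; ring
    rw [e]
    linarith
  have hpos : (0 : ℝ) < 1 + (n0 : ℝ) := by positivity
  refine le_trans (Real.log_le_log hpos hle) ?_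
  rw [Real.log_mul hc0.ne' (by positivity), Real.log_pow]
  have h1 : Real.log c ≤ c := by
    have := Real.log_le_sub_one_of_pos hc0
    linarith
  have h2 : Real.log s ≤ s := by
    have := Real.log_le_sub_one_of_pos hs0
    linarith
  have h3 : c ≤ c * s := le_mul_of_one_le_right hc0.le hs
  push_cast
  have e : (c + 8) * s = c * s + 8 * s := by ring
  rw [e]
  linarith

theorem ASY : ASY_stmt := by
  intro b k m x hb hk hm hx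
  have hkR : (1 : ℝ) ≤ (k : ℝ) := by exact_mod_cast hk
  have hmR : (1 : ℝ) ≤ (m : ℝ) := by exact_mod_cast hm
  have hP1 : (1 : ℝ) ≤ (k : ℝ) ^ 3 := one_le_pow₀ hkR
  have hP0 : (0 : ℝ) < (k : ℝ) ^ 3 := by linarith
  have hxm : 0 < x * m := by positivity
  have hlam : 0 ≤ Real.log (1 + (b : ℝ)) := Real.log_nonneg (by
    have : (0 : ℝ) ≤ (b : ℝ) := Nat.cast_nonneg b
    linarith)
  have hlog2 : 0 ≤ Real.log 2 := Real.log_nonneg (by norm_num)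
  have hlog4 : 0 ≤ Real.log 4 := Real.log_nonneg (by norm_num)
  obtain ⟨c1, hc1⟩ : ∃ c1 : ℝ, c1 = Real.log 2 + m * Real.log 4 := ⟨_, rfl⟩
  have hc10 : 0 ≤ c1 := by rw [hc1]; positivity
  obtain ⟨a, ha⟩ : ∃ a : ℝ, a = x * m + 1 := ⟨_, rfl⟩
  have ha0 : 0 ≤ a := by rw [ha]; positivity
  obtain ⟨c3, hc3⟩ : ∃ c3 : ℝ, c3 = (a + a ^ 2 * Real.log (1 + (b : ℝ)) + 1) *
    (2 * ((k : ℝ) ^ 3) ^ 2 * m * a ^ 2) + 2 + 8 := ⟨_, rfl⟩
  have hc30 : 0 ≤ c3 := by rw [hc3]; positivity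
  obtain ⟨β, hβ⟩ : ∃ β : ℝ, β = 2 * (b : ℝ) + 3 := ⟨_, rfl⟩
  have hβ0 : 0 < β := by rw [hβ]; positivity
  obtain ⟨K, hK⟩ : ∃ K : ℝ, K = β + 2 * β * (a + 1) + 1 + (x * m * c1 + 4 + 2 * c1) +
    (a + 1) * c3 + 2 := ⟨_, rfl⟩
  have htend : Tendsto (fun N : ℕ => √(Real.log (N : ℝ))) atTop atTop :=
    Real.tendsto_sqrt_atTop.comp (Real.tendsto_log_atTop.comp tendsto_natCast_atTop_atTop)
  obtain ⟨N₀, hN₀⟩ := Filter.eventually_atTop.1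
    (htend.eventually_ge_atTop (max 1 (K * (k : ℝ) ^ 3 / (x * m))))
  refine ⟨max N₀ 1, fun N hN => ?_⟩
  have hNn : 1 ≤ N := le_trans (le_max_right _ _) hN
  have hs := hN₀ N (le_trans (le_max_left _ _) hN)
  have hl0 : 0 ≤ Real.log (N : ℝ) := Real.log_natCast_nonneg N
  obtain ⟨s, hsdef⟩ : ∃ s : ℝ, s = √(Real.log (N : ℝ)) := ⟨_, rfl⟩
  rw [← hsdef] at hs
  have hs1 : 1 ≤ s := le_trans (le_max_left _ _) hs
  have hsK : K * (k : ℝ) ^ 3 / (x * m) ≤ s := le_trans (le_max_right _ _) hs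
  have hl : Real.log (N : ℝ) = s ^ 2 := by rw [hsdef, Real.sq_sqrt hl0]
  have hs0 : 0 < s := by linarith
  have hs2 : 1 ≤ s ^ 2 := one_le_pow₀ hs1
  have hs23 : s ^ 2 ≤ s ^ 3 := pow_le_pow_right₀ hs1 (by norm_num)
  have hs3 : 1 ≤ s ^ 3 := one_le_pow₀ hs1
  obtain ⟨q, hqdef⟩ : ∃ q : ℕ, q = ⌈x * m * Real.log N⌉₊ := ⟨_, rfl⟩
  rw [← hqdef]
  have hq0 : (0 : ℝ) ≤ (q : ℝ) := Nat.cast_nonneg q
  have hq : (q : ℝ) ≤ x * m * s ^ 2 + 1 := by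
    rw [hqdef, ← hl]
    exact (Nat.ceil_lt_add_one (by positivity)).le
  have hqa : (q : ℝ) ≤ a * s ^ 2 := by
    have e : a * s ^ 2 = x * m * s ^ 2 + s ^ 2 := by rw [ha]; ring
    rw [e]
    linarith
  -- term by term
  have hT1 : Real.log (2 * (b : ℝ) + 3) ≤ β * s ^ 3 := by
    rw [← hβ]
    have h1 := Real.log_le_sub_one_of_pos hβ0
    have h2 : β ≤ β * s ^ 3 := le_mul_of_one_le_right hβ0.le hs3
    linarith
  have hT2 : Real.log (2 * (2 * (b : ℝ) + 3) * ((q : ℝ) + 1)) ≤ 2 * β * (a + 1) * s ^ 3 := by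
    rw [← hβ]
    have h1 := Real.log_le_sub_one_of_pos (show 0 < 2 * β * ((q : ℝ) + 1) by positivity)
    have h2 : 2 * β * ((q : ℝ) + 1) ≤ 2 * β * ((a + 1) * s ^ 3) := by
      refine mul_le_mul_of_nonneg_left ?_ (by positivity)
      have h3 : a * s ^ 2 ≤ a * s ^ 3 := mul_le_mul_of_nonneg_left hs23 ha0
      have e : (a + 1) * s ^ 3 = a * s ^ 3 + s ^ 3 := by ring
      rw [e]
      linarith
    have e : 2 * β * ((a + 1) * s ^ 3) = 2 * β * (a + 1) * s ^ 3 := by ring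
    rw [e] at h2
    linarith
  have hT3 : (q : ℝ) * Real.log N / ((k ^ 3 : ℕ) : ℝ) ≤ x * m * s ^ 4 / (k : ℝ) ^ 3 + s ^ 3 := by
    rw [hl]
    push_cast
    have h1 : (q : ℝ) * s ^ 2 ≤ x * m * s ^ 4 + s ^ 2 := by
      have := mul_le_mul_of_nonneg_right hq (by positivity : 0 ≤ s ^ 2)
      have e : (x * m * s ^ 2 + 1) * s ^ 2 = x * m * s ^ 4 + s ^ 2 := by ring
      rwa [e] at this
    have h2 : (q : ℝ) * s ^ 2 / (k : ℝ) ^ 3 ≤ (x * m * s ^ 4 + s ^ 2) / (k : ℝ) ^ 3 :=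
      div_le_div_of_nonneg_right h1 hP0.le
    have h3 : s ^ 2 / (k : ℝ) ^ 3 ≤ s ^ 2 := div_le_self (by positivity) hP1
    rw [add_div] at h2
    linarith
  have hT4 := ASY_logLL N m q (k ^ 3) (nn N m b q (k ^ 3)) hNn
  have hT4a : ((q : ℝ) / ((k ^ 3 : ℕ) : ℝ) + 1) * (2 * Real.log N + (Real.log 2 + m * Real.log 4)) ≤
      2 * (x * m * s ^ 4 / (k : ℝ) ^ 3) + (x * m * c1 + 4 + 2 * c1) * s ^ 3 := by
    rw [hl, ← hc1]
    push_cast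
    have h1 : (q : ℝ) / (k : ℝ) ^ 3 ≤ x * m * s ^ 2 / (k : ℝ) ^ 3 + 1 := by
      have h2 : (q : ℝ) / (k : ℝ) ^ 3 ≤ (x * m * s ^ 2 + 1) / (k : ℝ) ^ 3 :=
        div_le_div_of_nonneg_right hq hP0.le
      have h3 : 1 / (k : ℝ) ^ 3 ≤ 1 := div_le_self (by norm_num) hP1
      rw [add_div] at h2
      linarith
    have h4 : ((q : ℝ) / (k : ℝ) ^ 3 + 1) * (2 * s ^ 2 + c1) ≤
        (x * m * s ^ 2 / (k : ℝ) ^ 3 + 2) * (2 * s ^ 2 + c1) :=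
      mul_le_mul_of_nonneg_right (by linarith) (by positivity)
    refine le_trans h4 ?_
    have e : (x * m * s ^ 2 / (k : ℝ) ^ 3 + 2) * (2 * s ^ 2 + c1) =
        2 * (x * m * s ^ 4 / (k : ℝ) ^ 3) + (x * m * c1 / (k : ℝ) ^ 3) * s ^ 2 + 4 * s ^ 2 + 2 * c1 := by
      ring
    rw [e]
    have h5 : x * m * c1 / (k : ℝ) ^ 3 ≤ x * m * c1 := div_le_self (by positivity) hP1
    have h6 : (x * m * c1 / (k : ℝ) ^ 3) * s ^ 2 ≤ (x * m * c1) * s ^ 3 :=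
      mul_le_mul h5 hs23 (by positivity) (by positivity)
    have h7 : c1 ≤ c1 * s ^ 3 := le_mul_of_one_le_right hc10 hs3
    have e2 : (x * m * c1 + 4 + 2 * c1) * s ^ 3 = (x * m * c1) * s ^ 3 + 4 * s ^ 3 + 2 * (c1 * s ^ 3) := by
      ring
    rw [e2]
    linarith
  have hT5 : ((q : ℝ) + 1) * Real.log (1 + (nn N m b q (k ^ 3) : ℝ)) ≤ (a + 1) * c3 * s ^ 3 := by
    have h1 : Real.log (1 + (nn N m b q (k ^ 3) : ℝ)) ≤ c3 * s := by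
      rw [hc3]
      refine ASY_lognn m (Real.log (1 + (b : ℝ))) ((k : ℝ) ^ 3) a s q (nn N m b q (k ^ 3)) hlam ha0 hs1 hq0 hqa ?_
      unfold nn
      rw [hl]
      push_cast
      ring_nf
    have h2 : (q : ℝ) + 1 ≤ (a + 1) * s ^ 2 := by
      have e : (a + 1) * s ^ 2 = a * s ^ 2 + s ^ 2 := by ring
      rw [e]
      linarith
    have h0 : 0 ≤ Real.log (1 + (nn N m b q (k ^ 3) : ℝ)) := Real.log_nonneg (by
      have : (0 : ℝ) ≤ (nn N m b q (k ^ 3) : ℝ) := Nat.cast_nonneg _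
      linarith)
    refine le_trans (mul_le_mul h2 h1 h0 (by positivity)) (le_of_eq ?_)
    ring
  have hT6 : 2 * Real.log (N : ℝ) ≤ 2 * s ^ 3 := by
    rw [hl]
    linarith
  have hfin : K * s ^ 3 ≤ x * m * s ^ 4 / (k : ℝ) ^ 3 := by
    have h1 : K * (k : ℝ) ^ 3 ≤ s * (x * m) := (div_le_iff₀ hxm).1 hsK
    rw [le_div_iff₀ hP0]
    have h2 := mul_le_mul_of_nonneg_right h1 (by positivity : 0 ≤ s ^ 3)
    have e1 : K * (k : ℝ) ^ 3 * s ^ 3 = K * s ^ 3 * (k : ℝ) ^ 3 := by ring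
    have e2 : s * (x * m) * s ^ 3 = x * m * s ^ 4 := by ring
    rwa [e1, e2] at h2
  unfold RR
  have hR : 4 * x / (k : ℝ) ^ 3 * m * Real.log N ^ 2 = 4 * (x * m * s ^ 4 / (k : ℝ) ^ 3) := by
    rw [hl]
    ring
  rw [hR]
  have hKs : K * s ^ 3 = β * s ^ 3 + 2 * β * (a + 1) * s ^ 3 + s ^ 3 +
      (x * m * c1 + 4 + 2 * c1) * s ^ 3 + (a + 1) * c3 * s ^ 3 + 2 * s ^ 3 := by
    rw [hK]
    ring
  linarith

end Pool.Agent.helper24.CG
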